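import Mathlib

/-! Two abstract lemmas on extended nonnegative reals. -/

set_option autoImplicit false

open MeasureTheory Filter Topology Finset
open scoped ENNReal NNReal

namespace Pool.Agent.H991Z.Erg

lemma amgm (z t : ℝ≥0∞) (h0 : t ≠ 0) (h1 : t ≠ ∞) : z ≤ t + t⁻¹ * z ^ 2 := by
  rcases le_total z t with h | h
  · exact h.trans le_self_add
  · refine le_trans ?_ le_add_self
    calc z = t⁻¹ * (t * z) := by rw [← mul_assoc, ENNReal.inv_mul_cancel h0 h1, one_mul]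
      _ ≤ t⁻¹ * (z * z) := by gcongr
      _ = _ := by rw [pow_two]

lemma tsum_antidiag (u : ℕ × ℕ → ℝ≥0∞) :
    ∑' n, ∑ p ∈ antidiagonal n, u p = ∑' p, u p := by
  rw [← Finset.HasAntidiagonal.sigmaAntidiagonalEquivProd.tsum_eq u, ENNReal.tsum_sigma']
  refine tsum_congr fun n => ?_
  rw [← Finset.tsum_subtype]
  rfl

lemma sum_fst_le (a : ℕ → ℝ≥0∞) (n : ℕ) : ∑ p ∈ antidiagonal n, a p.1 ≤ ∑' k, a k := by
  rw [Finset.Nat.sum_antidiagonal_eq_sum_range_succ (f := fun i _ => a i)]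
  exact ENNReal.sum_le_tsum _

lemma sum_snd_le (a : ℕ → ℝ≥0∞) (n : ℕ) : ∑ p ∈ antidiagonal n, a p.2 ≤ ∑' k, a k := by
  rw [← Finset.Nat.sum_antidiagonal_swap]
  exact sum_fst_le a n

lemma diag {X : Type} [MeasurableSpace X] (μ : Measure X) (z : ℕ → ℕ → X → ℝ≥0∞)
    (hz : ∀ j k, Measurable (z j k)) (θ C : ℝ≥0∞) (hθ0 : θ ≠ 0) (hθ : θ < 1) (hC : C ≠ ∞)
    (a : ℕ → ℝ≥0∞) (ha : ∑' k, a k ≠ ∞)
    (h : ∀ j k, ∫⁻ x, z j k x ^ 2 ∂μ ≤ C * (θ ^ j) ^ 2 * a k) :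
    ∀ᵐ x ∂μ, Tendsto (fun n => ∑ p ∈ antidiagonal n, z p.1 p.2 x) atTop (𝓝 0) := by
  have hθt : θ ≠ ∞ := (hθ.trans ENNReal.one_lt_top).ne
  have hg : ∑' j, θ ^ j ≠ ∞ := by
    rw [ENNReal.tsum_geometric]
    exact ENNReal.inv_ne_top.2 (tsub_pos_iff_lt.2 hθ).ne'
  have hm : ∀ p : ℕ × ℕ, Measurable fun x => (θ ^ p.1)⁻¹ * z p.1 p.2 x ^ 2 :=
    fun p => ((hz _ _).pow_const 2).const_mul _
  have h1 : ∫⁻ x, ∑' p : ℕ × ℕ, (θ ^ p.1)⁻¹ * z p.1 p.2 x ^ 2 ∂μ ≠ ∞ := by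
    rw [lintegral_tsum fun p => (hm p).aemeasurable]
    have h2 : ∀ p : ℕ × ℕ, ∫⁻ x, (θ ^ p.1)⁻¹ * z p.1 p.2 x ^ 2 ∂μ ≤ C * (θ ^ p.1 * a p.2) := by
      intro p
      rw [lintegral_const_mul _ ((hz _ _).pow_const 2)]
      refine (mul_le_mul_right (h _ _) _).trans (le_of_eq ?_)
      have := ENNReal.inv_mul_cancel (pow_ne_zero p.1 hθ0) (ENNReal.pow_ne_top (n := p.1) hθt)
      calc _ = ((θ ^ p.1)⁻¹ * θ ^ p.1) * (C * (θ ^ p.1 * a p.2)) := by ring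
        _ = _ := by rw [this, one_mul]
    refine ne_top_of_le_ne_top ?_ (ENNReal.tsum_le_tsum h2)
    rw [ENNReal.tsum_mul_left, ENNReal.tsum_prod (f := fun j k => θ ^ j * a k)]
    simp_rw [ENNReal.tsum_mul_left]
    rw [ENNReal.tsum_mul_right]
    exact ENNReal.mul_ne_top hC (ENNReal.mul_ne_top hg ha)
  filter_upwards [ae_lt_top (Measurable.ennreal_tsum hm) h1] with x hx
  rw [← tsum_antidiag] at hx
  have h3 := ENNReal.tendsto_atTop_zero_of_tsum_ne_top hx.ne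
  rw [ENNReal.tendsto_nhds_zero]
  intro ε hε
  obtain ⟨δ, hδ0, hδt, hδ⟩ : ∃ δ : ℝ≥0∞, δ ≠ 0 ∧ δ ≠ ∞ ∧ δ * ∑' j, θ ^ j ≤ ε / 2 := by
    obtain ⟨δ, h1, h2⟩ := ENNReal.exists_nnreal_pos_mul_lt hg (ENNReal.half_pos hε.ne').ne'
    exact ⟨δ, by exact_mod_cast h1.ne', ENNReal.coe_ne_top, h2.le⟩
  have h4 := ENNReal.Tendsto.const_mul (a := δ⁻¹) h3 (Or.inr (ENNReal.inv_ne_top.2 hδ0))
  rw [mul_zero, ENNReal.tendsto_nhds_zero] at h4
  filter_upwards [h4 (ε / 2) (ENNReal.half_pos hε.ne')] with n hn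
  calc _ ≤ ∑ p ∈ antidiagonal n, (δ * θ ^ p.1 + δ⁻¹ * ((θ ^ p.1)⁻¹ * z p.1 p.2 x ^ 2)) := by
        refine Finset.sum_le_sum fun p _ => ?_
        have h5 := pow_ne_zero p.1 hθ0
        have h6 := ENNReal.pow_ne_top (n := p.1) hθt
        have := amgm (z p.1 p.2 x) (δ * θ ^ p.1) (mul_ne_zero hδ0 h5) (ENNReal.mul_ne_top hδt h6)
        rwa [ENNReal.mul_inv (Or.inl hδ0) (Or.inl hδt), mul_assoc] at this
    _ = δ * ∑ p ∈ antidiagonal n, θ ^ p.1 +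
          δ⁻¹ * ∑ p ∈ antidiagonal n, (θ ^ p.1)⁻¹ * z p.1 p.2 x ^ 2 := by
        rw [Finset.sum_add_distrib, Finset.mul_sum, Finset.mul_sum]
    _ ≤ ε / 2 + ε / 2 := by
        refine add_le_add (le_trans ?_ hδ) hn
        gcongr
        exact sum_fst_le (fun j => θ ^ j) n
    _ = ε := ENNReal.add_halves ε

lemma sum_four (n : ℕ) : ∑ i ∈ range n, (4 : ℝ≥0∞) ^ i ≤ 4 ^ n := by
  induction n with
  | zero => simp
  | succ n ih =>
    rw [Finset.sum_range_succ, pow_succ]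
    calc _ ≤ (4 : ℝ≥0∞) ^ n + 4 ^ n := by gcongr
      _ = 4 ^ n * 2 := by ring
      _ ≤ _ := by gcongr; norm_num

lemma limsup_le (u v : ℕ → ℝ≥0∞) (L : ℝ≥0∞) (hu : ∀ n, u n ≠ ∞)
    (huv : ∀ᶠ n in atTop, u n ≤ L + v n) (hv : Tendsto v atTop (𝓝 0)) (Φ : ℝ → ℝ≥0∞)
    (hΦ : Monotone Φ) (h : ∀ n : ℕ, Φ (4 ^ n) ≤ ∑ i ∈ range n, 4 ^ i * u i) :
    limsup (fun R : ℝ => (ENNReal.ofReal R)⁻¹ * Φ R) atTop ≤ 4 * L := by
  refine ENNReal.le_of_forall_pos_le_add fun ε hε _ => ?_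
  have hδ : (0 : ℝ≥0∞) < ε / 5 := ENNReal.div_pos (by exact_mod_cast hε.ne') (by simp)
  obtain ⟨N, hN⟩ := eventually_atTop.1 (huv.and (ENNReal.tendsto_nhds_zero.1 hv _ hδ))
  set S := ∑ i ∈ range N, 4 ^ i * u i with hS
  have hSt : S ≠ ∞ := ENNReal.sum_ne_top.2 fun i _ => ENNReal.mul_ne_top (by simp) (hu i)
  have h1 : Tendsto (fun R : ℝ => (ENNReal.ofReal R)⁻¹ * S) atTop (𝓝 0) := by
    have := ENNReal.Tendsto.mul_const (b := S)
      (tendsto_inv_iff.2 ENNReal.tendsto_ofReal_atTop) (Or.inr hSt)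
    simpa using this
  refine limsup_le_of_le (by isBoundedDefault) ?_
  filter_upwards [ENNReal.tendsto_nhds_zero.1 h1 _ hδ, eventually_ge_atTop (1 : ℝ)] with R hR hR1
  obtain ⟨n, h2, h3⟩ := exists_nat_pow_near hR1 (show (1 : ℝ) < 4 by norm_num)
  have h4 : ∑ i ∈ range (n + 1), 4 ^ i * u i ≤ S + 4 ^ (n + 1) * (L + ε / 5) := by
    calc _ ≤ ∑ i ∈ range (n + 1), ((if i < N then 4 ^ i * u i else 0) + 4 ^ i * (L + ε / 5)) := by
          refine Finset.sum_le_sum fun i _ => ?_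
          split_ifs with hi
          · exact le_self_add
          · rw [zero_add]
            obtain ⟨h5, h6⟩ := hN i (not_lt.1 hi)
            gcongr
            exact h5.trans (by gcongr)
      _ = ∑ i ∈ range (n + 1), (if i < N then 4 ^ i * u i else 0) +
            (∑ i ∈ range (n + 1), 4 ^ i) * (L + ε / 5) := by
          rw [Finset.sum_add_distrib, Finset.sum_mul]
      _ ≤ _ := by
          refine add_le_add ?_ (mul_le_mul_left (sum_four _) _)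
          rw [← Finset.sum_filter]
          exact Finset.sum_le_sum_of_subset fun i hi => mem_range.2 (mem_filter.1 hi).2
  have h5 : (4 : ℝ≥0∞) ^ n ≤ ENNReal.ofReal R := by
    refine le_trans (le_of_eq ?_) (ENNReal.ofReal_le_ofReal h2)
    rw [ENNReal.ofReal_pow (by norm_num)]; simp
  have h6 : (ENNReal.ofReal R)⁻¹ * 4 ^ n ≤ 1 := by
    calc _ ≤ (ENNReal.ofReal R)⁻¹ * ENNReal.ofReal R := by gcongr
      _ ≤ 1 := ENNReal.inv_mul_le_one _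
  calc _ ≤ (ENNReal.ofReal R)⁻¹ * (S + 4 ^ (n + 1) * (L + ε / 5)) := by
        gcongr
        exact (hΦ h3.le).trans ((h _).trans h4)
    _ = (ENNReal.ofReal R)⁻¹ * S + ((ENNReal.ofReal R)⁻¹ * 4 ^ n) * (4 * (L + ε / 5)) := by ring
    _ ≤ ε / 5 + 1 * (4 * (L + ε / 5)) := by gcongr
    _ = 4 * L + 5 * (ε / 5) := by ring
    _ = _ := by rw [ENNReal.mul_div_cancel (by simp) (by simp)]

end Pool.Agent.H991Z.Erg
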