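import Pool.Agent.H991Z.Erg.Ops

/-! The bound for the upper limit of ball averages, by the filling scheme. -/

set_option autoImplicit false
set_option linter.unusedSectionVars false

open MeasureTheory Filter Topology Finset
open scoped ENNReal NNReal
open Pool.Agent.H800Z.Erg

namespace Pool.Agent.H991Z.Erg

variable [MeasurableSpace G] [BorelSpace G] (m : Measure G) [m.IsHaarMeasure]
  {X : Type} [MeasurableSpace X] [MulAction G X] {μ : Measure X} [IsProbabilityMeasure μ]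

/-- The Abel parameters. -/
noncomputable def ta (j : ℕ) : ℝ := (243 * 4 ^ j)⁻¹

lemma ta_pos (j : ℕ) : 0 < ta j := by unfold ta; positivity

lemma ta_le (j : ℕ) : ta j ≤ (4⁻¹ : ℝ) ^ j := by
  unfold ta
  rw [inv_pow]
  have : (0 : ℝ) < 4 ^ j := by positivity
  exact inv_anti₀ this (by linarith)

lemma ta_le_one (j : ℕ) : ta j ≤ 1 := (ta_le j).trans (pow_le_one₀ (by norm_num) (by norm_num))

lemma int_ker (A : Act X μ) {ψ : X → ℝ} (hψ : Measurable ψ) (h2 : ∀ y, |ψ y| ≤ 2) {τ : ℝ}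
    (hτ : 0 < τ) (x : X) : Integrable (fun g : G => ker 0 τ g * ψ (g • x)) m :=
  (integrable_ker m 0 hτ).mul_bdd (c := 2) (hψ.comp (meas_g A x)).aestronglyMeasurable
    (Eventually.of_forall fun _ => h2 _)

lemma step_b3 (A : Act X μ) {ψ : X → ℝ} (hψ : Measurable ψ) (h0 : ∀ y, 0 ≤ ψ y)
    (h2 : ∀ y, |ψ y| ≤ 2) (j : ℕ) (x : X) :
    ∫⁻ g in B (243 * 4 ^ j), ENNReal.ofReal (ψ (g • x)) ∂m ≤
      3 * ENNReal.ofReal (∫ g, ker 0 (ta j) g * ψ (g • x) ∂m) := by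
  rw [ofReal_integral_eq_lintegral_ofReal (int_ker m A hψ h2 (ta_pos j) x)
    (Eventually.of_forall fun g => mul_nonneg (ker_pos _ _ _).le (h0 _)),
    ← lintegral_const_mul' _ _ (by simp), ← lintegral_indicator (measurableSet_B _)]
  refine lintegral_mono fun g => ?_
  by_cases hg : g ∈ B (243 * 4 ^ j)
  · rw [Set.indicator_of_mem hg]
    have h1 : ta j * N g ≤ 1 := by
      unfold ta
      rw [inv_mul_le_iff₀ (by positivity), mul_one]
      exact (mem_B.1 hg).le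
    have h3 : 1 ≤ 3 * ker 0 (ta j) g := by
      rw [ker_zero]
      have h4 : Real.exp (-1) ≤ Real.exp (-(ta j * N g)) := Real.exp_le_exp.2 (by linarith)
      have h5 : Real.exp 1 * Real.exp (-1) = 1 := by rw [← Real.exp_add]; simp
      have h6 := Real.exp_one_lt_d9
      have h7 := Real.exp_pos (-1)
      nlinarith
    rw [show (3 : ℝ≥0∞) = ENNReal.ofReal 3 by simp, ← ENNReal.ofReal_mul (by norm_num)]
    refine ENNReal.ofReal_le_ofReal ?_
    nlinarith [h0 (g • x)]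
  · rw [Set.indicator_of_notMem hg]
    exact zero_le

/-- The centred Abel average. -/
noncomputable def Y (μ : Measure X) (ψ : X → ℝ) (j : ℕ) (x : X) : ℝ :=
  ∫ g, ker 0 (ta j) g * ψ (g • x) ∂m - V m (ta j) * ∫ y, ψ y ∂μ

lemma meas_Y (A : Act X μ) {ψ : X → ℝ} (hψ : Measurable ψ) (j : ℕ) : Measurable (Y m μ ψ j) := by
  have h1 : Measurable fun p : X × G => ker 0 (ta j) p.2 * ψ (p.2 • p.1) :=
    ((continuous_ker 0 _).measurable.comp measurable_snd).mul (hψ.comp (meas_xg A))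
  exact (h1.stronglyMeasurable.integral_prod_right' (ν := m)).measurable.sub_const _

lemma bdd_Y (A : Act X μ) {ψ : X → ℝ} (hψ : Measurable ψ) (h2 : ∀ y, |ψ y| ≤ 2) (j : ℕ) :
    ∃ b, ∀ x, |Y m μ ψ j x| ≤ b := by
  refine ⟨∫ g, ker 0 (ta j) g * 2 ∂m + |V m (ta j) * ∫ y, ψ y ∂μ|, fun x => ?_⟩
  refine (abs_sub _ _).trans (add_le_add ?_ le_rfl)
  refine abs_integral_le_integral_abs.trans (integral_mono (int_ker m A hψ h2 (ta_pos j) x).abs
    ((integrable_ker m 0 (ta_pos j)).mul_const 2) fun g => ?_)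
  have := ker_pos 0 (ta j) g
  simp only [abs_mul, abs_of_pos this]
  gcongr
  exact h2 _

/-- The real valued local average. -/
noncomputable def ps (φ : X → ℝ≥0∞) (y : X) : ℝ := (M m φ y).toReal

lemma meas_ps (A : Act X μ) {φ : X → ℝ≥0∞} (hφ : Measurable φ) : Measurable (ps m φ) :=
  (meas_M m A hφ).ennreal_toReal

lemma ps_nonneg (φ : X → ℝ≥0∞) (y : X) : 0 ≤ ps m φ y := ENNReal.toReal_nonneg

lemma ps_le {φ : X → ℝ≥0∞} (h : ∀ y, M m φ y ≤ 2) (y : X) : |ps m φ y| ≤ 2 := by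
  rw [abs_of_nonneg (ps_nonneg m φ y)]
  exact ENNReal.toReal_le_of_le_ofReal (by norm_num) (by simpa using h y)

lemma ofReal_ps {φ : X → ℝ≥0∞} (h : ∀ y, M m φ y ≤ 2) (y : X) :
    ENNReal.ofReal (ps m φ y) = M m φ y :=
  ENNReal.ofReal_toReal (ne_top_of_le_ne_top (by simp) (h y))

lemma intg_ps (A : Act X μ) {φ : X → ℝ≥0∞} (hφ : Measurable φ) (h : ∀ y, M m φ y ≤ 2) :
    Integrable (ps m φ) μ :=
  Integrable.of_bound (meas_ps m A hφ).aestronglyMeasurable 2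
    (Eventually.of_forall fun y => ps_le m h y)

lemma int_ps (A : Act X μ) {φ : X → ℝ≥0∞} (hφ : Measurable φ) (h : ∀ y, M m φ y ≤ 2) :
    ENNReal.ofReal (∫ y, ps m φ y ∂μ) = m (B 9) * ∫⁻ y, φ y ∂μ := by
  rw [ofReal_integral_eq_lintegral_ofReal (intg_ps m A hφ h)
    (Eventually.of_forall (ps_nonneg m φ)), ← int_M m A hφ]
  simp_rw [ofReal_ps m h]

lemma four_pow (j : ℕ) : ENNReal.ofReal (4 ^ j) = 4 ^ j := by
  rw [ENNReal.ofReal_pow (by norm_num)]; simp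

lemma step_b (A : Act X μ) {α : ℝ} (hV : Vol m α) {φ : X → ℝ≥0∞} (hφ : Measurable φ)
    (h : ∀ y, M m φ y ≤ 2) (j : ℕ) (x : X) :
    M m (P^[j] φ) x ≤ 57 * ENNReal.ofReal (243 * α) * ∫⁻ y, φ y ∂μ +
      57 * (m (B 9))⁻¹ * ((4 ^ j)⁻¹ * ‖Y m μ (ps m φ) j x‖ₑ) := by
  have hb0 : m (B 9) ≠ 0 := (measure_B_pos m (by norm_num)).ne'
  have hb1 : m (B 9) ≠ ∞ := (measure_B_lt_top m 9).ne
  have h1 := step_b2 m A hφ (27 * 4 ^ j) x
  rw [show (9 : ℝ) * (27 * 4 ^ j) = 243 * 4 ^ j by ring] at h1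
  have h2 := step_b3 m A (meas_ps m A hφ) (ps_nonneg m φ) (ps_le m h) j x
  simp_rw [ofReal_ps m h] at h2
  have h3 : V m (ta j) ≤ 243 * α * 4 ^ j := by
    rw [hV.2 _ (ta_pos j), div_le_iff₀ (ta_pos j)]
    have h4 : Real.exp (-(2 * ta j)) ≤ 1 := Real.exp_le_one_iff.2 (by linarith [ta_pos j])
    have h5 : 243 * α * 4 ^ j * ta j = α := by unfold ta; field_simp
    rw [h5]
    nlinarith [hV.1]
  have hα := hV.1
  have h4 : ENNReal.ofReal (∫ g, ker 0 (ta j) g * ps m φ (g • x) ∂m) ≤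
      ENNReal.ofReal (243 * α) * 4 ^ j * (m (B 9) * ∫⁻ y, φ y ∂μ) + ‖Y m μ (ps m φ) j x‖ₑ := by
    rw [← int_ps m A hφ h, ← four_pow, ← ENNReal.ofReal_mul (by positivity),
      ← ENNReal.ofReal_mul (by positivity), Real.enorm_eq_ofReal_abs]
    have h5 : 0 ≤ ∫ y, ps m φ y ∂μ := integral_nonneg (ps_nonneg m φ)
    rw [← ENNReal.ofReal_add (by positivity) (abs_nonneg _)]
    refine ENNReal.ofReal_le_ofReal ?_
    have h6 := le_abs_self (Y m μ (ps m φ) j x)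
    have h7 := mul_le_mul_of_nonneg_right h3 h5
    unfold Y at h6 ⊢
    linarith
  have h5 : ∫⁻ g in B (27 * 4 ^ j), φ (g • x) ∂m ≤ (m (B 9))⁻¹ * (3 *
      (ENNReal.ofReal (243 * α) * 4 ^ j * (m (B 9) * ∫⁻ y, φ y ∂μ) + ‖Y m μ (ps m φ) j x‖ₑ)) := by
    calc _ = (m (B 9))⁻¹ * ((∫⁻ g in B (27 * 4 ^ j), φ (g • x) ∂m) * m (B 9)) := by
          rw [mul_comm _ (m (B 9)), ← mul_assoc, ENNReal.inv_mul_cancel hb0 hb1, one_mul]
      _ ≤ _ := mul_le_mul_right (h1.trans (h2.trans (mul_le_mul_right h4 _))) _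
  have e1 := ENNReal.inv_mul_cancel hb0 hb1
  have e2 : ((4 : ℝ≥0∞) ^ j)⁻¹ * 4 ^ j = 1 := ENNReal.inv_mul_cancel (by simp) (by simp)
  refine (step_b1 m A hφ j x).trans ((mul_le_mul_right (mul_le_mul_right h5 _) _).trans
    (le_of_eq ?_))
  calc _ = (((4 : ℝ≥0∞) ^ j)⁻¹ * 4 ^ j) * ((m (B 9))⁻¹ * m (B 9)) *
        (57 * ENNReal.ofReal (243 * α) * ∫⁻ y, φ y ∂μ) +
      57 * (m (B 9))⁻¹ * ((4 ^ j)⁻¹ * ‖Y m μ (ps m φ) j x‖ₑ) := by ring
    _ = _ := by rw [e1, e2, one_mul, one_mul]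

lemma step_l2 (A : Act X μ) (hD : Dec m X μ) : ∃ θ C : ℝ≥0∞, θ ≠ 0 ∧ θ < 1 ∧ C ≠ ∞ ∧
    ∀ φ : X → ℝ≥0∞, Measurable φ → (∀ y, M m φ y ≤ 2) → ∀ j : ℕ,
      ∫⁻ x, ((4 ^ j)⁻¹ * ‖Y m μ (ps m φ) j x‖ₑ) ^ 2 ∂μ ≤ C * (θ ^ j) ^ 2 * ∫⁻ y, φ y ∂μ := by
  obtain ⟨C, c, hc, hD⟩ := hD
  have t0 : 0 < (4⁻¹ : ℝ) ^ c := Real.rpow_pos_of_pos (by norm_num) c
  have t1 : (4⁻¹ : ℝ) ^ c < 1 := Real.rpow_lt_one (by norm_num) (by norm_num) hc
  refine ⟨ENNReal.ofReal ((4⁻¹ : ℝ) ^ c), ENNReal.ofReal (2 * (243 * C) ^ 2) * m (B 9),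
    (ENNReal.ofReal_pos.2 t0).ne', ENNReal.ofReal_lt_one.2 t1,
    ENNReal.mul_ne_top ENNReal.ofReal_ne_top (measure_B_lt_top m 9).ne, fun φ hφ h j => ?_⟩
  have h1 := hD (ps m φ) (meas_ps m A hφ) ⟨2, ps_le m h⟩ (ta j) (ta_pos j) (ta_le_one j)
  change ∫ x, Y m μ (ps m φ) j x ^ 2 ∂μ ≤ _ at h1
  have hY := meas_Y m A (meas_ps m A hφ) j
  obtain ⟨b, hb⟩ := bdd_Y m A (meas_ps m A hφ) (ps_le m h) j
  have h2 : Integrable (fun x => Y m μ (ps m φ) j x ^ 2) μ :=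
    Integrable.of_bound (hY.pow_const 2).aestronglyMeasurable (b ^ 2)
      (Eventually.of_forall fun x => by
        rw [Real.norm_eq_abs, abs_pow]
        exact pow_le_pow_left₀ (abs_nonneg _) (hb x) 2)
  have h3 : ∫⁻ x, ‖Y m μ (ps m φ) j x‖ₑ ^ 2 ∂μ =
      ENNReal.ofReal (∫ x, Y m μ (ps m φ) j x ^ 2 ∂μ) := by
    rw [ofReal_integral_eq_lintegral_ofReal h2 (Eventually.of_forall fun x => sq_nonneg _)]
    refine lintegral_congr fun x => ?_
    rw [Real.enorm_eq_ofReal_abs, ← ENNReal.ofReal_pow (abs_nonneg _), sq_abs]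
  have h4 : ∫ x, ps m φ x ^ 2 ∂μ ≤ 2 * ∫ x, ps m φ x ∂μ := by
    rw [← integral_const_mul]
    refine integral_mono_of_nonneg (Eventually.of_forall fun x => sq_nonneg _)
      ((intg_ps m A hφ h).const_mul 2) (Eventually.of_forall fun x => ?_)
    have := ps_nonneg m φ x
    have := (le_abs_self _).trans (ps_le m h x)
    simp only
    nlinarith
  have h5 : ta j ^ c ≤ ((4⁻¹ : ℝ) ^ c) ^ j := by
    rw [Real.rpow_pow_comm (by norm_num)]
    exact Real.rpow_le_rpow (ta_pos j).le (ta_le j) hc.le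
  have h6 : 0 ≤ ta j ^ c := Real.rpow_nonneg (ta_pos j).le c
  have h7 : (C * ta j ^ c / ta j) ^ 2 ≤ (243 * C) ^ 2 * (4 ^ j) ^ 2 * (((4⁻¹ : ℝ) ^ c) ^ j) ^ 2 := by
    have : (C * ta j ^ c / ta j) ^ 2 = (243 * C) ^ 2 * (4 ^ j) ^ 2 * (ta j ^ c) ^ 2 := by
      rw [div_eq_mul_inv, ta, inv_inv]; ring
    rw [this]
    gcongr
  have h8 : 0 ≤ ∫ y, ps m φ y ∂μ := integral_nonneg (ps_nonneg m φ)
  have h9 : ∫ x, Y m μ (ps m φ) j x ^ 2 ∂μ ≤ (4 ^ j) ^ 2 * (2 * (243 * C) ^ 2 *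
      ((((4⁻¹ : ℝ) ^ c) ^ j) ^ 2 * ∫ y, ps m φ y ∂μ)) := by
    refine h1.trans ((mul_le_mul h7 h4 (integral_nonneg fun x => sq_nonneg _)
      (by positivity)).trans (le_of_eq ?_))
    ring
  simp_rw [mul_pow]
  rw [lintegral_const_mul _ (hY.enorm.pow_const 2), h3]
  refine (mul_le_mul_right (ENNReal.ofReal_le_ofReal h9) _).trans (le_of_eq ?_)
  rw [ENNReal.ofReal_mul (by positivity), ENNReal.ofReal_mul (by positivity),
    ENNReal.ofReal_mul (p := _ ^ 2) (by positivity), int_ps m A hφ h,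
    ENNReal.ofReal_pow (by positivity), four_pow, ENNReal.ofReal_pow (by positivity) 2,
    ENNReal.ofReal_pow t0.le j, ← mul_assoc, ← mul_pow,
    ENNReal.inv_mul_cancel (by simp) (by simp), one_pow, one_mul, mul_pow]
  ring

theorem thm_max (hcz : S_cz) : S_max := by
  intro _ _ m _ X _ _ μ _ α A hD hV
  obtain ⟨θ, C, hθ0, hθ1, hC, hl2⟩ := step_l2 m A hD
  have hb0 : m (B 9) ≠ 0 := (measure_B_pos m (by norm_num)).ne'
  have hb1 : m (B 9) ≠ ∞ := (measure_B_lt_top m 9).ne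
  refine ⟨4 * (57 * ENNReal.ofReal (243 * α) * 4), by finiteness, fun F hF hI => ?_⟩
  choose! gg hh hgm hhm hadd hg2 hbad using hcz m X μ A
  let f : ℕ → X → ℝ≥0∞ := fun n => Nat.rec (Fo F) (fun k fk => P (hh fk k)) n
  have f0 : f 0 = Fo F := rfl
  have fs : ∀ k, f (k + 1) = P (hh (f k) k) := fun _ => rfl
  have fm : ∀ k, Measurable (f k) := by
    intro k
    induction k with
    | zero => exact meas_Fo A hF
    | succ k ih => rw [fs]; exact meas_P A (hhm _ ih k)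
  set g : ℕ → X → ℝ≥0∞ := fun k => gg (f k) k with hg
  set h : ℕ → X → ℝ≥0∞ := fun k => hh (f k) k with hh'
  have gm : ∀ k, Measurable (g k) := fun k => hgm _ (fm k) k
  have hm : ∀ k, Measurable (h k) := fun k => hhm _ (fm k) k
  have g2 : ∀ k y, M m (g k) y ≤ 2 := fun k => hg2 _ (fm k) k
  have dec : ∀ n y, P^[n] (Fo F) y = ∑ p ∈ antidiagonal n, P^[p.1] (g p.2) y + h n y := by
    intro n
    induction n with
    | zero =>
      intro y
      rw [Finset.Nat.antidiagonal_zero, Finset.sum_singleton]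
      exact (hadd _ (fm 0) 0 y).symm
    | succ n ih =>
      intro y
      rw [Function.iterate_succ_apply', funext ih, P_add, P_sum, Finset.Nat.sum_antidiagonal_succ]
      simp_rw [Function.iterate_succ_apply']
      have := hadd _ (fm (n + 1)) (n + 1) y
      rw [fs n] at this
      change g (n + 1) y + h (n + 1) y = P (h n) y at this
      rw [← this]
      simp only [Function.iterate_zero, id_eq]
      ring
  have tel : ∀ n, ∑ k ∈ range n, ∫⁻ y, g k y ∂μ + ∫⁻ y, f n y ∂μ = 4 * ∫⁻ y, F y ∂μ := by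
    intro n
    induction n with
    | zero => simpa [f0] using int_Fo A hF
    | succ n ih =>
      rw [Finset.sum_range_succ, fs, int_P A (hm n), add_assoc, ← lintegral_add_left (gm n), ← ih]
      congr 1
      exact lintegral_congr fun y => hadd _ (fm n) n y
  have hsum : ∑' k, ∫⁻ y, g k y ∂μ ≤ 4 * ∫⁻ y, F y ∂μ :=
    ENNReal.tsum_le_of_sum_range_le fun n => le_self_add.trans (tel n).le
  have hI4 : 4 * ∫⁻ y, F y ∂μ ≠ ∞ := ENNReal.mul_ne_top (by simp) hI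
  have hev : ∀ᵐ x ∂μ, ∀ᶠ n in atTop, x ∉ {x | ∫⁻ γ in B 9, h n (γ • x) ∂m ≠ 0} := by
    refine ae_eventually_notMem (ne_top_of_le_ne_top ?_ (ENNReal.tsum_le_tsum
      (g := fun k => m (B 729) * (2⁻¹ ^ k * (4 * ∫⁻ y, F y ∂μ) + ∫⁻ y, g k y ∂μ)) fun k => ?_))
    · rw [ENNReal.tsum_mul_left, ENNReal.tsum_add, ENNReal.tsum_mul_right, ENNReal.tsum_geometric]
      refine ENNReal.mul_ne_top (measure_B_lt_top m _).ne (ENNReal.add_ne_top.2
        ⟨ENNReal.mul_ne_top (by simp) hI4, ne_top_of_le_ne_top hI4 hsum⟩)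
    · refine (hbad _ (fm k) k).trans ?_
      gcongr
      exact le_add_self.trans (tel k).le
  have hfin : ∀ᵐ x ∂μ, ∀ n, M m (P^[n] (Fo F)) x < ∞ := by
    refine ae_all_iff.2 fun n => ae_lt_top (meas_M m A (meas_Pn A (meas_Fo A hF) n)) ?_
    rw [int_M m A (meas_Pn A (meas_Fo A hF) n), int_Pn A (meas_Fo A hF), int_Fo A hF]
    exact ENNReal.mul_ne_top hb1 hI4
  have hz := diag μ (fun j k x => (4 ^ j)⁻¹ * ‖Y m μ (ps m (g k)) j x‖ₑ)
    (fun j k => (meas_Y m A (meas_ps m A (gm k)) j).enorm.const_mul _) θ C hθ0 hθ1 hC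
    (fun k => ∫⁻ y, g k y ∂μ) (ne_top_of_le_ne_top hI4 hsum) fun j k => hl2 _ (gm k) (g2 k) j
  filter_upwards [hev, hfin, hz] with x h1 h2 h3
  have h4 := ENNReal.Tendsto.const_mul (a := 57 * (m (B 9))⁻¹) h3
    (Or.inr (ENNReal.mul_ne_top (by simp) (ENNReal.inv_ne_top.2 hb0)))
  rw [mul_zero] at h4
  have h5 := limsup_le (fun n => M m (P^[n] (Fo F)) x) _
    (57 * ENNReal.ofReal (243 * α) * (4 * ∫⁻ y, F y ∂μ)) (fun n => (h2 n).ne) ?_ h4
    (fun R => ∫⁻ γ in B R, F (γ • x) ∂m)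
    (fun R R' hR => lintegral_mono_set (B_mono hR)) (fun n => step_a m A hF n x)
  · refine h5.trans (le_of_eq ?_)
    ring
  filter_upwards [h1] with n hn
  have hn' : ∫⁻ γ in B 9, h n (γ • x) ∂m = 0 := not_not.1 hn
  have e : M m (P^[n] (Fo F)) x = ∑ p ∈ antidiagonal n, M m (P^[p.1] (g p.2)) x := by
    unfold M
    simp_rw [dec]
    have hmm : ∀ p : ℕ × ℕ, Measurable fun γ : G => P^[p.1] (g p.2) (γ • x) :=
      fun p => (meas_Pn A (gm _) _).comp (meas_g A x)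
    rw [lintegral_add_left (Finset.measurable_sum _ fun p _ => hmm p), hn', add_zero,
      lintegral_finsetSum _ fun p _ => hmm p]
  rw [e]
  refine (Finset.sum_le_sum fun p _ => step_b m A hV (gm p.2) (g2 p.2) p.1 x).trans ?_
  rw [Finset.sum_add_distrib, ← Finset.mul_sum, ← Finset.mul_sum]
  gcongr
  exact (sum_snd_le (fun k => ∫⁻ y, g k y ∂μ) n).trans hsum

end Pool.Agent.H991Z.Erg
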