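import Pool.Agent.H800Z.Erg.St2
import Pool.Agent.H991Z.Erg.Abs

/-! The averaging operators used in the filling scheme. -/

set_option autoImplicit false
set_option linter.unusedSectionVars false

open MeasureTheory Filter Topology Finset
open scoped ENNReal NNReal
open Pool.Agent.H800Z.Erg

namespace Pool.Agent.H991Z.Erg

variable [MeasurableSpace G] [BorelSpace G] (m : Measure G) [m.IsHaarMeasure]
  {X : Type} [MeasurableSpace X] [MulAction G X] {μ : Measure X} [IsProbabilityMeasure μ]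

/-- The integral over the ball of radius nine. -/
noncomputable def M (φ : X → ℝ≥0∞) (x : X) : ℝ≥0∞ := ∫⁻ γ in B 9, φ (γ • x) ∂m

/-- The Markov operator. -/
noncomputable def P (φ : X → ℝ≥0∞) (y : X) : ℝ≥0∞ := 4⁻¹ * ∑ b ∈ range 4, φ (w 1 b • y)

lemma meas_x (A : Act X μ) (g : G) : Measurable fun x : X => g • x := (A.pres g).measurable

lemma meas_g (A : Act X μ) (x : X) : Measurable fun g : G => g • x :=
  A.meas.comp (measurable_id.prodMk measurable_const)

lemma meas_xg (A : Act X μ) : Measurable fun p : X × G => p.2 • p.1 :=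
  A.meas.comp measurable_swap

lemma mcx (A : Act X μ) {φ : X → ℝ≥0∞} (hφ : Measurable φ) (g : G) :
    Measurable fun x : X => φ (g • x) := hφ.comp (meas_x A g)

lemma mcg (A : Act X μ) {φ : X → ℝ≥0∞} (hφ : Measurable φ) (x : X) (a : G) :
    Measurable fun g : G => φ ((a * g) • x) :=
  (hφ.comp (meas_g A x)).comp (measurable_const_mul a)

lemma meas_M (A : Act X μ) {φ : X → ℝ≥0∞} (hφ : Measurable φ) : Measurable (M m φ) :=
  (hφ.comp (meas_xg A)).lintegral_prod_right'

lemma meas_P (A : Act X μ) {φ : X → ℝ≥0∞} (hφ : Measurable φ) : Measurable (P φ) :=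
  (Finset.measurable_sum _ fun _ _ => mcx A hφ _).const_mul _

lemma meas_Pn (A : Act X μ) {φ : X → ℝ≥0∞} (hφ : Measurable φ) (n : ℕ) :
    Measurable (P^[n] φ) := by
  induction n with
  | zero => exact hφ
  | succ n ih => rw [Function.iterate_succ_apply']; exact meas_P A ih

lemma int_smul (A : Act X μ) {φ : X → ℝ≥0∞} (hφ : Measurable φ) (g : G) :
    ∫⁻ x, φ (g • x) ∂μ = ∫⁻ x, φ x ∂μ := (A.pres g).lintegral_comp hφ

lemma int_M (A : Act X μ) {φ : X → ℝ≥0∞} (hφ : Measurable φ) :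
    ∫⁻ x, M m φ x ∂μ = m (B 9) * ∫⁻ x, φ x ∂μ := by
  unfold M
  rw [lintegral_lintegral_swap (f := fun (x : X) (γ : G) => φ (γ • x))
    (hφ.comp (meas_xg A)).aemeasurable]
  simp_rw [int_smul A hφ]
  rw [setLIntegral_const, mul_comm]

lemma int_P (A : Act X μ) {φ : X → ℝ≥0∞} (hφ : Measurable φ) :
    ∫⁻ x, P φ x ∂μ = ∫⁻ x, φ x ∂μ := by
  unfold P
  rw [lintegral_const_mul _ (Finset.measurable_sum _ fun _ _ => mcx A hφ _),
    lintegral_finsetSum _ fun _ _ => mcx A hφ _]
  simp_rw [int_smul A hφ]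
  rw [Finset.sum_const, card_range, nsmul_eq_mul, ← mul_assoc, Nat.cast_ofNat,
    ENNReal.inv_mul_cancel (by simp) (by simp), one_mul]

lemma int_Pn (A : Act X μ) {φ : X → ℝ≥0∞} (hφ : Measurable φ) (n : ℕ) :
    ∫⁻ x, P^[n] φ x ∂μ = ∫⁻ x, φ x ∂μ := by
  induction n with
  | zero => rfl
  | succ n ih => rw [Function.iterate_succ_apply', int_P A (meas_Pn A hφ n), ih]

lemma sum_range_four (f : ℕ → ℝ≥0∞) (K : ℕ) :
    ∑ i ∈ range (4 * K), f i = ∑ j ∈ range K, ∑ b ∈ range 4, f (4 * j + b) := by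
  induction K with
  | zero => simp
  | succ K ih => rw [Nat.mul_succ, Finset.sum_range_add, ih, Finset.sum_range_succ (n := K)]

lemma Pn_eq (φ : X → ℝ≥0∞) (n : ℕ) (y : X) :
    P^[n] φ y = (4 ^ n)⁻¹ * ∑ j ∈ range (4 ^ n), φ (w n j • y) := by
  induction n generalizing y with
  | zero => simp [w_zero]
  | succ n ih =>
    rw [Function.iterate_succ_apply', P]
    simp_rw [ih]
    rw [pow_succ' (4 : ℕ) n, sum_range_four, Finset.sum_comm, ← Finset.mul_sum, ← mul_assoc, pow_succ',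
      ENNReal.mul_inv (by simp) (by simp)]
    simp_rw [w_succ, mul_smul]

lemma P_add (φ ψ : X → ℝ≥0∞) (y : X) : P (fun x => φ x + ψ x) y = P φ y + P ψ y := by
  simp only [P, Finset.sum_add_distrib, mul_add]

lemma P_sum {ι : Type} (s : Finset ι) (φ : ι → X → ℝ≥0∞) (y : X) :
    P (fun x => ∑ i ∈ s, φ i x) y = ∑ i ∈ s, P (φ i) y := by
  simp only [P]
  rw [Finset.sum_comm, Finset.mul_sum]

lemma shift (f : G → ℝ≥0∞) (a : G) (S : Set G) (hS : MeasurableSet S) :
    ∫⁻ γ in S, f (a * γ) ∂m = ∫⁻ g, ((fun g => a⁻¹ * g) ⁻¹' S).indicator f g ∂m := by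
  rw [← lintegral_indicator hS,
    ← lintegral_mul_left_eq_self (((fun g => a⁻¹ * g) ⁻¹' S).indicator f) a]
  refine lintegral_congr fun γ => ?_
  by_cases h : γ ∈ S
  · rw [Set.indicator_of_mem h, Set.indicator_of_mem (by simpa using h)]
  · rw [Set.indicator_of_notMem h, Set.indicator_of_notMem (by simpa using h)]

lemma meas_shift {f : G → ℝ≥0∞} (hf : Measurable f) (a : G) (R : ℝ) :
    Measurable (((fun g => a⁻¹ * g) ⁻¹' B R).indicator f) :=
  hf.indicator ((measurable_const_mul _) (measurableSet_B R))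

/-- The sum of four translates. -/
noncomputable def Fo (F : X → ℝ≥0∞) (y : X) : ℝ≥0∞ := ∑ l : Fin 4, F (kk l • y)

lemma meas_Fo (A : Act X μ) {F : X → ℝ≥0∞} (hF : Measurable F) : Measurable (Fo F) :=
  Finset.measurable_sum _ fun _ _ => mcx A hF _

lemma int_Fo (A : Act X μ) {F : X → ℝ≥0∞} (hF : Measurable F) :
    ∫⁻ x, Fo F x ∂μ = 4 * ∫⁻ x, F x ∂μ := by
  unfold Fo
  rw [lintegral_finsetSum _ fun _ _ => mcx A hF _]
  simp_rw [int_smul A hF]
  simp

lemma M_Pn (A : Act X μ) {φ : X → ℝ≥0∞} (hφ : Measurable φ) (n : ℕ) (x : X) :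
    M m (P^[n] φ) x = (4 ^ n)⁻¹ * ∫⁻ g, ∑ j ∈ range (4 ^ n),
      ((fun g => (w n j)⁻¹ * g) ⁻¹' B 9).indicator (fun g => φ (g • x)) g ∂m := by
  have hf : Measurable fun g : G => φ (g • x) := hφ.comp (meas_g A x)
  unfold M
  simp_rw [Pn_eq, ← mul_smul]
  rw [lintegral_const_mul _ (Finset.measurable_sum _ fun _ _ => mcg A hφ x _),
    lintegral_finsetSum _ fun _ _ => mcg A hφ x _,
    lintegral_finsetSum _ fun _ _ => meas_shift hf _ _]
  congr 1
  exact Finset.sum_congr rfl fun j _ => shift m (fun g => φ (g • x)) _ _ (measurableSet_B 9)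

lemma step_a (A : Act X μ) {F : X → ℝ≥0∞} (hF : Measurable F) (n : ℕ) (x : X) :
    ∫⁻ g in B (4 ^ n), F (g • x) ∂m ≤ ∑ i ∈ range n, 4 ^ i * M m (P^[i] (Fo F)) x := by
  have hf : Measurable fun g : G => F (g • x) := hF.comp (meas_g A x)
  have h1 : ∀ i, 4 ^ i * M m (P^[i] (Fo F)) x = ∫⁻ g, ∑ j ∈ range (4 ^ i), ∑ l : Fin 4,
      ((fun g => (kk l * w i j)⁻¹ * g) ⁻¹' B 9).indicator (fun g => F (g • x)) g ∂m := by
    intro i
    unfold M
    simp_rw [Pn_eq, Fo, ← mul_smul, ← mul_assoc]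
    rw [lintegral_const_mul _ (Finset.measurable_sum _ fun _ _ => Finset.measurable_sum _
      fun _ _ => mcg A hF x _), ← mul_assoc,
      ENNReal.mul_inv_cancel (by simp) (by simp), one_mul,
      lintegral_finsetSum _ fun _ _ => Finset.measurable_sum _
        fun _ _ => mcg A hF x _,
      lintegral_finsetSum _ fun _ _ => Finset.measurable_sum _ fun _ _ => meas_shift hf _ _]
    refine Finset.sum_congr rfl fun j _ => ?_
    rw [lintegral_finsetSum _ fun _ _ => mcg A hF x _,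
      lintegral_finsetSum _ fun _ _ => meas_shift hf _ _]
    exact Finset.sum_congr rfl fun l _ => shift m (fun g => F (g • x)) _ _ (measurableSet_B 9)
  simp_rw [h1]
  rw [← lintegral_finsetSum _ fun _ _ => Finset.measurable_sum _ fun _ _ =>
    Finset.measurable_sum _ fun _ _ => meas_shift hf _ _, ← lintegral_indicator (measurableSet_B _)]
  refine lintegral_mono fun g => ?_
  by_cases hg : g ∈ B (4 ^ n)
  · rw [Set.indicator_of_mem hg]
    obtain ⟨l, i, hi, j, hj, h⟩ := cover hg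
    refine le_trans ?_ (Finset.single_le_sum (fun _ _ => zero_le) (mem_range.2 hi))
    refine le_trans ?_ (Finset.single_le_sum (fun _ _ => zero_le) (mem_range.2 hj))
    refine le_trans ?_ (Finset.single_le_sum (fun _ _ => zero_le) (mem_univ l))
    rw [Set.indicator_of_mem (by exact h)]
  · rw [Set.indicator_of_notMem hg]
    exact zero_le

lemma step_b1 (A : Act X μ) {φ : X → ℝ≥0∞} (hφ : Measurable φ) (n : ℕ) (x : X) :
    M m (P^[n] φ) x ≤ (4 ^ n)⁻¹ * (19 * ∫⁻ g in B (27 * 4 ^ n), φ (g • x) ∂m) := by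
  classical
  have hf : Measurable fun g : G => φ (g • x) := hφ.comp (meas_g A x)
  rw [M_Pn m A hφ, ← lintegral_indicator (measurableSet_B _),
    ← lintegral_const_mul _ (hf.indicator (measurableSet_B _))]
  refine mul_le_mul_right (lintegral_mono fun g => ?_) _
  have h1 : ∑ j ∈ range (4 ^ n),
      ((fun g => (w n j)⁻¹ * g) ⁻¹' B 9).indicator (fun g => φ (g • x)) g =
      ∑ j ∈ (range (4 ^ n)).filter fun j => (w n j)⁻¹ * g ∈ B 9, φ (g • x) := by
    rw [Finset.sum_filter]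
    refine Finset.sum_congr rfl fun j _ => ?_
    rw [Set.indicator_apply]
    rfl
  rw [h1, Finset.sum_const, nsmul_eq_mul]
  by_cases hg : g ∈ B (27 * 4 ^ n)
  · rw [Set.indicator_of_mem hg]
    gcongr
    exact_mod_cast overlap n g
  · have : ((range (4 ^ n)).filter fun j => (w n j)⁻¹ * g ∈ B 9) = ∅ := by
      refine Finset.filter_eq_empty_iff.2 fun j hj h => hg (mem_B_of_w (mem_range.1 hj) h)
    rw [this]
    simp

lemma step_b2 (A : Act X μ) {φ : X → ℝ≥0∞} (hφ : Measurable φ) (R : ℝ) (x : X) :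
    (∫⁻ g in B R, φ (g • x) ∂m) * m (B 9) ≤ ∫⁻ g in B (9 * R), M m φ (g • x) ∂m := by
  have hf : Measurable fun g : G => φ (g • x) := hφ.comp (meas_g A x)
  unfold M
  simp_rw [← mul_smul]
  rw [lintegral_lintegral_swap (f := fun (g γ : G) => φ ((γ * g) • x))
    (hf.comp (measurable_snd.mul measurable_fst)).aemeasurable, ← setLIntegral_const]
  refine setLIntegral_mono' (measurableSet_B 9) fun γ hγ => ?_
  rw [shift m (fun g => φ (g • x)) γ _ (measurableSet_B _),
    ← lintegral_indicator (measurableSet_B _)]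
  refine lintegral_mono fun g => ?_
  refine Set.indicator_le_indicator_of_subset (fun g hg => ?_) (fun _ => zero_le) g
  exact mul_mem_B (inv_mem_B.2 hγ) hg

end Pool.Agent.H991Z.Erg
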